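import Pool.Agent.Helper20.RG.St1

set_option autoImplicit false

open MeasureTheory Set Filter Topology
open scoped ENNReal RealInnerProductSpace

namespace Pool.Agent.Helper15.RG

open Pool.Agent.Helper20.RG
open Pool.Agent.Helper68.LM (Pl)

/-- the grid points -/
noncomputable def gp (L : ℝ) (n : ℤ × ℤ) : Pl := pt ((n.1 : ℝ) * L) ((n.2 : ℝ) * L)

theorem card_Icc_le (x : ℝ) : ((Finset.Icc ⌈x - 5⌉ ⌊x + 5⌋).card) ≤ 11 := by
  rw [Int.card_Icc]
  have h1 : ((⌊x + 5⌋ : ℤ) : ℝ) ≤ x + 5 := Int.floor_le _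
  have h2 : x - 5 ≤ ((⌈x - 5⌉ : ℤ) : ℝ) := Int.le_ceil _
  have h3 : ((⌊x + 5⌋ + 1 - ⌈x - 5⌉ : ℤ) : ℝ) ≤ ((11 : ℤ) : ℝ) := by
    push_cast
    linarith
  have h4 : ⌊x + 5⌋ + 1 - ⌈x - 5⌉ ≤ 11 := by exact_mod_cast h3
  omega

theorem mem_Icc_of (x L : ℝ) (hL : 0 < L) (n : ℤ) (h : |x - n * L| ≤ 5 * L) :
    n ∈ Finset.Icc ⌈x / L - 5⌉ ⌊x / L + 5⌋ := by
  rw [Finset.mem_Icc]
  have h' := abs_le.mp h
  constructor
  · rw [Int.ceil_le]
    rw [sub_le_iff_le_add, div_le_iff₀ hL]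
    linarith [h'.2]
  · rw [Int.le_floor]
    rw [← sub_le_iff_le_add, le_div_iff₀ hL]
    linarith [h'.1]

theorem count_le (hPT : StPT) (L : ℝ) (hL : 0 < L) (y : Pl) :
    ∑' n : ℤ × ℤ, (Sq (gp L n) (5 * L)).indicator (fun _ => (1 : ℝ≥0∞)) y ≤ 121 := by
  set T : Finset (ℤ × ℤ) := Finset.Icc ⌈y 0 / L - 5⌉ ⌊y 0 / L + 5⌋ ×ˢ
    Finset.Icc ⌈y 1 / L - 5⌉ ⌊y 1 / L + 5⌋ with hT
  rw [tsum_eq_sum (s := T)]
  · calc ∑ n ∈ T, (Sq (gp L n) (5 * L)).indicator (fun _ => (1 : ℝ≥0∞)) y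
        ≤ ∑ n ∈ T, (1 : ℝ≥0∞) := by
          apply Finset.sum_le_sum
          intro n _
          exact Set.indicator_le_self' (fun _ _ => zero_le) y
      _ = (T.card : ℝ≥0∞) := by simp
      _ ≤ ((121 : ℕ) : ℝ≥0∞) := by
          have h : T.card ≤ 121 := by
            rw [hT, Finset.card_product]
            calc _ ≤ 11 * 11 := Nat.mul_le_mul (card_Icc_le _) (card_Icc_le _)
              _ = 121 := by norm_num
          exact_mod_cast h
      _ = 121 := by norm_num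
  · intro n hn
    apply Set.indicator_of_notMem
    intro hy
    apply hn
    obtain ⟨h0, h1⟩ := hy
    have e := hPT.1 ((n.1 : ℝ) * L) ((n.2 : ℝ) * L)
    unfold gp at h0 h1
    rw [e.1] at h0
    rw [e.2] at h1
    rw [hT, Finset.mem_product]
    exact ⟨mem_Icc_of _ _ hL _ h0, mem_Icc_of _ _ hL _ h1⟩

theorem sum_vol_le (hPT : StPT) (L : ℝ) (hL : 0 < L) (A : Set Pl) :
    ∑' n : ℤ × ℤ, volume (A ∩ Sq (gp L n) (5 * L)) ≤ 121 * volume A := by
  have hm : ∀ n : ℤ × ℤ, MeasurableSet (Sq (gp L n) (5 * L)) := fun n =>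
    (hPT.2.2.2.2.2.2.2 (gp L n) (5 * L) (by positivity)).1
  have e1 : ∀ n : ℤ × ℤ, volume (A ∩ Sq (gp L n) (5 * L)) =
      ∫⁻ y in A, (Sq (gp L n) (5 * L)).indicator (fun _ => (1 : ℝ≥0∞)) y := by
    intro n
    rw [lintegral_indicator (hm n), Measure.restrict_restrict (hm n)]
    simp [Set.inter_comm]
  simp_rw [e1]
  rw [← lintegral_tsum]
  · calc ∫⁻ y in A, ∑' n : ℤ × ℤ, (Sq (gp L n) (5 * L)).indicator (fun _ => (1 : ℝ≥0∞)) y
        ≤ ∫⁻ _ in A, 121 := lintegral_mono (fun y => count_le hPT L hL y)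
      _ = 121 * volume A := by rw [setLIntegral_const]
  · intro n
    exact (measurable_const.indicator (hm n)).aemeasurable

theorem hRDS (hPT : StPT) (hRDG : StRDG) : StRDS := by
  obtain ⟨C, hC, H⟩ := hRDG
  refine ⟨121 * C, by positivity, ?_⟩
  intro N s Et Er p L L₂ α D m nst R hs hE hinv hα hα1 hL₂ hp hNL hns hm hm1 hD hDm hR
  have key : ∀ n : ℤ × ℤ, volume (R ∩ Sq (gp L₂ n) (L₂ / 2)) ≤
      ENNReal.ofReal (C * nst * D / m ^ 3) *
        ∑ j ∈ Finset.range N, volume (Er j ∩ Sq (gp L₂ n) (5 * L₂)) := by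
    intro n
    apply H N s Et Er (gp L₂ n) p L L₂ α D m nst (R ∩ Sq (gp L₂ n) (L₂ / 2)) hs hE ?_ hα hα1 hp hNL
      hns hm hm1 hD hDm inter_subset_right (fun x hx => hR x hx.1)
    intro j hj y hy hyS y' hy'S hpr
    have hy' : y' = y + (y' 0 - y 0) • E (s j) := by
      have e0 : (E (s j)) 0 = 1 := (hPT.1 1 (s j)).1
      have e1 : (E (s j)) 1 = s j := (hPT.1 1 (s j)).2
      ext i
      fin_cases i
      · simp only [Fin.zero_eta, PiLp.add_apply, PiLp.smul_apply, smul_eq_mul]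
        rw [e0]; ring
      · simp only [Fin.mk_one, PiLp.add_apply, PiLp.smul_apply, smul_eq_mul]
        rw [e1]
        unfold pr at hpr
        linarith
    rw [hy']
    apply hinv j hj y hy
    have h1 := abs_le.mp hyS.1
    have h2 := abs_le.mp hy'S.1
    rw [abs_le]
    constructor <;> linarith [h1.1, h1.2, h2.1, h2.2]
  have hcov : R ⊆ ⋃ n : ℤ × ℤ, R ∩ Sq (gp L₂ n) (L₂ / 2) := by
    intro x hx
    rw [mem_iUnion]
    refine ⟨(round (x 0 / L₂), round (x 1 / L₂)), hx, ?_, ?_⟩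
    · have e := (hPT.1 ((round (x 0 / L₂) : ℝ) * L₂) ((round (x 1 / L₂) : ℝ) * L₂)).1
      have h := abs_sub_round (x 0 / L₂)
      show |x 0 - (pt ((round (x 0 / L₂) : ℝ) * L₂) ((round (x 1 / L₂) : ℝ) * L₂)) 0| ≤ L₂ / 2
      rw [e]
      have h2 : x 0 - (round (x 0 / L₂) : ℝ) * L₂ = (x 0 / L₂ - round (x 0 / L₂)) * L₂ := by
        field_simp
      rw [h2, abs_mul, abs_of_pos hL₂]
      nlinarith
    · have e := (hPT.1 ((round (x 0 / L₂) : ℝ) * L₂) ((round (x 1 / L₂) : ℝ) * L₂)).2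
      have h := abs_sub_round (x 1 / L₂)
      show |x 1 - (pt ((round (x 0 / L₂) : ℝ) * L₂) ((round (x 1 / L₂) : ℝ) * L₂)) 1| ≤ L₂ / 2
      rw [e]
      have h2 : x 1 - (round (x 1 / L₂) : ℝ) * L₂ = (x 1 / L₂ - round (x 1 / L₂)) * L₂ := by
        field_simp
      rw [h2, abs_mul, abs_of_pos hL₂]
      nlinarith
  calc volume R ≤ volume (⋃ n : ℤ × ℤ, R ∩ Sq (gp L₂ n) (L₂ / 2)) := measure_mono hcov
    _ ≤ ∑' n : ℤ × ℤ, volume (R ∩ Sq (gp L₂ n) (L₂ / 2)) := measure_iUnion_le _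
    _ ≤ ∑' n : ℤ × ℤ, ENNReal.ofReal (C * nst * D / m ^ 3) *
        ∑ j ∈ Finset.range N, volume (Er j ∩ Sq (gp L₂ n) (5 * L₂)) :=
          ENNReal.tsum_le_tsum key
    _ = ENNReal.ofReal (C * nst * D / m ^ 3) *
        ∑ j ∈ Finset.range N, ∑' n : ℤ × ℤ, volume (Er j ∩ Sq (gp L₂ n) (5 * L₂)) := by
          rw [ENNReal.tsum_mul_left]
          rw [Summable.tsum_finsetSum (fun _ _ => ENNReal.summable)]
    _ ≤ ENNReal.ofReal (C * nst * D / m ^ 3) *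
        ∑ j ∈ Finset.range N, 121 * volume (Er j) := by
          gcongr with j
          exact sum_vol_le hPT L₂ hL₂ (Er j)
    _ = ENNReal.ofReal (121 * C * nst * D / m ^ 3) * ∑ j ∈ Finset.range N, volume (Er j) := by
          rw [← Finset.mul_sum, ← mul_assoc]
          congr 1
          have : 121 * C * nst * D / m ^ 3 = 121 * (C * nst * D / m ^ 3) := by ring
          rw [this, ENNReal.ofReal_mul (by norm_num), mul_comm]
          congr 1
          norm_num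

end Pool.Agent.Helper15.RG
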