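import Pool.Agent.Helper20.RG.St1

set_option autoImplicit false

open MeasureTheory Set Filter Topology
open scoped ENNReal RealInnerProductSpace

namespace Pool.Agent.Helper15.RG

open Pool.Agent.Helper20.RG

theorem sinc_eq_integral (x : ℝ) : Real.sinc x = ∫ t in (0:ℝ)..1, Real.cos (t * x) := by
  by_cases hx : x = 0
  · subst hx
    simp
  · rw [Real.sinc_of_ne_zero hx, intervalIntegral.integral_comp_mul_right (fun u => Real.cos u) hx]
    rw [integral_cos]
    simp
    field_simp

theorem sinc_lip (x y : ℝ) : |Real.sinc x - Real.sinc y| ≤ |x - y| := by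
  rw [sinc_eq_integral x, sinc_eq_integral y, ← intervalIntegral.integral_sub]
  · have h : ‖∫ t in (0:ℝ)..1, (Real.cos (t * x) - Real.cos (t * y))‖ ≤ |x - y| * |(1:ℝ) - 0| := by
      apply intervalIntegral.norm_integral_le_of_norm_le_const
      intro t ht
      rw [Set.uIoc_of_le zero_le_one] at ht
      have h1 := Real.lipschitzWith_cos.dist_le_mul (t * x) (t * y)
      rw [Real.dist_eq, Real.dist_eq] at h1
      simp only [NNReal.coe_one, one_mul] at h1
      rw [Real.norm_eq_abs]
      refine h1.trans ?_
      rw [← mul_sub, abs_mul, abs_of_pos ht.1]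
      exact mul_le_of_le_one_left (abs_nonneg _) ht.2
    simpa using h
  · exact (Real.continuous_cos.comp (continuous_id.mul continuous_const)).intervalIntegrable _ _
  · exact (Real.continuous_cos.comp (continuous_id.mul continuous_const)).intervalIntegrable _ _

theorem hSINC : StSINC := by
  refine ⟨fun x => ⟨Real.abs_sinc_le_one x, ?_, ?_⟩, sinc_lip, ?_⟩
  · by_cases hx : x = 0
    · subst hx; simp
    · rw [Real.sinc_of_ne_zero hx]
      have : x * (Real.sin x / x) = Real.sin x := by field_simp
      rw [this]
      exact Real.abs_sin_le_one x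
  · have h := sinc_lip 0 x
    rw [Real.sinc_zero] at h
    simpa using h
  · intro a
    by_cases ha : a = 0
    · subst ha
      simp
      norm_num
    · have hpa : Real.pi * a ≠ 0 := mul_ne_zero Real.pi_ne_zero ha
      have hc : (-2 * (Real.pi : ℂ) * a * Complex.I) ≠ 0 := by
        have h1 : (Real.pi : ℂ) ≠ 0 := by exact_mod_cast Real.pi_ne_zero
        have h2 : (a : ℂ) ≠ 0 := by exact_mod_cast ha
        simp [h1, h2, Complex.I_ne_zero]
      have e1 : ∀ t : ℝ, Complex.exp (((-2 * Real.pi * a * t : ℝ) : ℂ) * Complex.I) =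
          Complex.exp ((-2 * (Real.pi : ℂ) * a * Complex.I) * t) := by
        intro t
        congr 1
        push_cast
        ring
      simp_rw [e1]
      rw [integral_exp_mul_complex hc]
      rw [Real.sinc_of_ne_zero hpa]
      push_cast
      rw [Complex.sin]
      have h1 : (Real.pi : ℂ) ≠ 0 := by exact_mod_cast Real.pi_ne_zero
      have h2 : (a : ℂ) ≠ 0 := by exact_mod_cast ha
      have a1 : -2 * (Real.pi : ℂ) * a * Complex.I * (1 / 2) = -((Real.pi : ℂ) * a) * Complex.I := by ring
      have a2 : -2 * (Real.pi : ℂ) * a * Complex.I * (-(1 / 2)) = ((Real.pi : ℂ) * a) * Complex.I := by ring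
      rw [a1, a2]
      rw [div_eq_div_iff hc (mul_ne_zero h1 h2)]
      linear_combination ((Complex.exp (-((Real.pi : ℂ) * a) * Complex.I) -
        Complex.exp (((Real.pi : ℂ) * a) * Complex.I)) * (Real.pi : ℂ) * a) * Complex.I_mul_I

end Pool.Agent.Helper15.RG
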