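import Pool.Agent.Helper20.RG.St3
import Pool.Agent.Helper33.RG.M_FAM

/-!
# Project RG, module TOP
-/

set_option autoImplicit false

open MeasureTheory Set Filter Topology
open scoped ENNReal RealInnerProductSpace

namespace Pool.Agent.Helper15.RG

open Pool.Agent.Helper20.RG
open Pool.Agent.Helper68.LM (Pl BB Bd Av HL ft fm DQ)

theorem hTOP (hYB : StYB) (hSYS : StSYS) (hU1 : StU1) (hU2 : StU2) (hL2A : StL2A) : StTOP := by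
  intro φ τ A σ c hG hGap hA hσ
  obtain ⟨C₁, hC₁, hu1⟩ := hU1 200 (by norm_num)
  obtain ⟨C₂, hC₂, hu2⟩ := hU2 200 (by norm_num)
  refine ⟨(2 * C₁) * C₂, by positivity, ?_⟩
  intro u W hu g hg
  have hS := (hSYS φ τ A σ c hG hGap hA hσ u (by omega)).2 hu
  have hsl := hS.slope
  have hℓ : (1 : ℝ) ≤ (2 : ℝ) ^ W := one_le_pow₀ (by norm_num)
  have hℓ0 : (0 : ℝ) < (2 : ℝ) ^ W := by positivity
  have hsum1 : ∀ ξ : Pl, ξ ≠ 0 →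
      ∑ j ∈ Finset.range (2 ^ u), ‖Zh (τ (tm u j)) (ce c φ u j) (mm τ u j) (mm τ (u - 1) (j / 2))
        ((2 : ℝ) ^ W) ξ‖ ≤ 2 * C₁ := by
    intro ξ hξ
    refine (hu1 u _ _ _ _ _ _ A σ hS ξ _ hξ hℓ0).trans ?_
    have h1 : 1 ≤ Real.sqrt ((2 : ℝ) ^ W) := Real.one_le_sqrt.2 hℓ
    have h2 : 1 / Real.sqrt ((2 : ℝ) ^ W) ≤ 1 := by
      rw [div_le_one (lt_of_lt_of_le one_pos h1)]; exact h1
    nlinarith
  have hsum2 := fun (ξ : Pl) (hξ : ξ ≠ 0) => hu2 u _ _ _ _ _ _ A σ hS ξ _ hξ hℓ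
  have hKu : (0 : ℝ) ≤ (KA A σ u : ℝ) + u + 1 := by positivity
  have hL := hL2A (2 ^ u)
      (fun k j => Z (τ (tm u j)) (ce c φ u j) (mm τ u j) (mm τ (u - 1) (j / 2)) ((2 : ℝ) ^ W) k g)
      (fun j ξ => Zh (τ (tm u j)) (ce c φ u j) (mm τ u j) (mm τ (u - 1) (j / 2)) ((2 : ℝ) ^ W) ξ)
      g (2 * C₁) (C₂ * (KA A σ u + u + 1)) hg (by positivity) (by positivity)
      (fun k j hj => Pool.Agent.Helper33.RG.z_ft hYB _ _ _ _ _ _ _ (hsl j hj) hℓ0 hg)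
      hsum1 hsum2
  have h4 : ∀ (k : ℤ) (x : Pl), ‖(1 / (2 : ℝ) ^ u) * ∑ j ∈ Finset.range (2 ^ u), Z (τ (tm u j))
      (ce c φ u j) (mm τ u j) (mm τ (u - 1) (j / 2)) ((2 : ℝ) ^ W) k g x‖ₑ ^ 2 =
      ENNReal.ofReal ((4 : ℝ) ^ (-(u : ℤ))) * ‖∑ j ∈ Finset.range (2 ^ u), Z (τ (tm u j))
      (ce c φ u j) (mm τ u j) (mm τ (u - 1) (j / 2)) ((2 : ℝ) ^ W) k g x‖ₑ ^ 2 := by
    intro k x
    rw [enorm_mul, mul_pow]
    congr 1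
    rw [Real.enorm_of_nonneg (by positivity), ← ENNReal.ofReal_pow (by positivity)]
    congr 1
    rw [one_div, inv_pow, ← pow_mul, mul_comm u 2, pow_mul, zpow_neg, zpow_natCast]
    norm_num
  simp_rw [h4]
  calc ∑' k : ℤ, ∫⁻ x, ENNReal.ofReal ((4 : ℝ) ^ (-(u : ℤ))) * ‖∑ j ∈ Finset.range (2 ^ u),
        Z (τ (tm u j)) (ce c φ u j) (mm τ u j) (mm τ (u - 1) (j / 2)) ((2 : ℝ) ^ W) k g x‖ₑ ^ 2
      = ENNReal.ofReal ((4 : ℝ) ^ (-(u : ℤ))) * ∑' k : ℤ, ∫⁻ x, ‖∑ j ∈ Finset.range (2 ^ u),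
        Z (τ (tm u j)) (ce c φ u j) (mm τ u j) (mm τ (u - 1) (j / 2)) ((2 : ℝ) ^ W) k g x‖ₑ ^ 2 := by
        rw [← ENNReal.tsum_mul_left]
        exact tsum_congr fun k => lintegral_const_mul' _ _ ENNReal.ofReal_ne_top
    _ ≤ ENNReal.ofReal ((4 : ℝ) ^ (-(u : ℤ))) *
        (ENNReal.ofReal (2 * C₁ * (C₂ * (KA A σ u + u + 1))) * ∫⁻ x, ‖g x‖ₑ ^ 2) :=
        mul_le_mul_right hL _
    _ = ENNReal.ofReal (2 * C₁ * C₂ * (4 : ℝ) ^ (-(u : ℤ)) * (KA A σ u + u + 1)) *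
        ∫⁻ x, ‖g x‖ₑ ^ 2 := by
        rw [← mul_assoc, ← ENNReal.ofReal_mul (by positivity)]
        congr 2
        ring

end Pool.Agent.Helper15.RG
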